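import Pool.Agent.Helper22.MI.Stmts1

set_option autoImplicit false

/-!
# MI, module UNL: a union of polyhedra
-/

namespace Pool.Agent.Helper22.MI

open Finset Pool.Agent.Helper68.SDP Pool.Agent.Helper68.LP

/-- the inequalities of the union -/
def unlC {N d r : ℕ} (A : Fin N → Fin r → Fin d → ℝ) (b : Fin N → Fin r → ℝ) :
    Fin N × Option (Fin r) → Fin N × Option (Fin d) → ℝ
  | (i', none), (i, none) => if i = i' then -1 else 0
  | (_, none), (_, some _) => 0
  | (i', some k), (i, none) => if i = i' then - b i' k else 0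
  | (i', some k), (i, some j) => if i = i' then A i' k j else 0

theorem unl_ineq {N d r : ℕ} (A : Fin N → Fin r → Fin d → ℝ) (b : Fin N → Fin r → ℝ)
    (Y : Fin N × Option (Fin d) → ℝ) :
    (∀ k, ∑ v, unlC A b k v * Y v ≤ 0) ↔
      ∀ i, (∀ k, ∑ j, A i k j * Y (i, some j) ≤ b i k * Y (i, none)) ∧ 0 ≤ Y (i, none) := by
  have h0 : ∀ i, ∑ v, unlC A b (i, none) v * Y v = - Y (i, none) := by
    intro i
    rw [Fintype.sum_prod_type, Finset.sum_eq_single i]
    · rw [Fintype.sum_option]
      simp [unlC]
    · intro b' _ hb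
      rw [Fintype.sum_option]
      simp [unlC, hb]
    · simp
  have h1 : ∀ i k, ∑ v, unlC A b (i, some k) v * Y v =
      ∑ j, A i k j * Y (i, some j) - b i k * Y (i, none) := by
    intro i k
    rw [Fintype.sum_prod_type, Finset.sum_eq_single i]
    · rw [Fintype.sum_option]
      simp [unlC]
      ring
    · intro b' _ hb
      rw [Fintype.sum_option]
      simp [unlC, hb]
    · simp
  constructor
  · intro h i
    refine ⟨fun k => ?_, ?_⟩
    · have := h (i, some k)
      rw [h1] at this
      linarith
    · have := h (i, none)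
      rw [h0] at this
      linarith
  · rintro h ⟨i, _ | k⟩
    · rw [h0]
      have := (h i).2
      linarith
    · rw [h1]
      have := (h i).1 k
      linarith

/-- the equations of the union -/
def unlG {N d : ℕ} {s : Fin N → ℕ} (E : (i : Fin N) → Fin (s i) → Fin d → ℝ)
    (e : (i : Fin N) → Fin (s i) → ℝ) :
    Option (Σ i : Fin N, Fin (s i)) → Fin N × Option (Fin d) → ℝ
  | none, (_, none) => 1
  | none, (_, some _) => 0
  | some k, (i, none) => if i = k.1 then - e k.1 k.2 else 0
  | some k, (i, some j) => if i = k.1 then E k.1 k.2 j else 0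

/-- the right hand sides -/
def unlg {N : ℕ} {s : Fin N → ℕ} : Option (Σ i : Fin N, Fin (s i)) → ℝ
  | none => 1
  | some _ => 0

theorem unl_eqs {N d : ℕ} {s : Fin N → ℕ} (E : (i : Fin N) → Fin (s i) → Fin d → ℝ)
    (e : (i : Fin N) → Fin (s i) → ℝ) (Y : Fin N × Option (Fin d) → ℝ) :
    (∀ k, ∑ v, unlG E e k v * Y v = unlg k) ↔
      (∀ i k, ∑ j, E i k j * Y (i, some j) = e i k * Y (i, none)) ∧ ∑ i, Y (i, none) = 1 := by
  have h0 : ∑ v, unlG E e none v * Y v = ∑ i, Y (i, none) := by
    rw [Fintype.sum_prod_type]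
    refine Finset.sum_congr rfl fun i _ => ?_
    rw [Fintype.sum_option]
    simp [unlG]
  have h1 : ∀ i k, ∑ v, unlG E e (some ⟨i, k⟩) v * Y v =
      ∑ j, E i k j * Y (i, some j) - e i k * Y (i, none) := by
    intro i k
    rw [Fintype.sum_prod_type, Finset.sum_eq_single i]
    · rw [Fintype.sum_option]
      simp [unlG]
      ring
    · intro b _ hb
      rw [Fintype.sum_option]
      simp [unlG, hb]
    · simp
  constructor
  · intro h
    refine ⟨fun i k => ?_, ?_⟩
    · have := h (some ⟨i, k⟩)
      rw [h1] at this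
      have h2 : (unlg (some ⟨i, k⟩ : Option (Σ i : Fin N, Fin (s i)))) = 0 := rfl
      rw [h2] at this
      linarith
    · rw [← h0, h none]
      rfl
  · rintro ⟨ha, hb⟩ k
    rcases k with _ | ⟨i, k⟩
    · rw [h0, hb]
      rfl
    · rw [h1, ha]
      show _ = (0 : ℝ)
      ring

theorem st_UNL : ST_UNL := by
  intro d N n R r δ Q hlp hne x hx hobj
  choose A b s E e hQ using hlp
  choose iσ hiσ using hx
  let eV : Fin (Fintype.card (Fin N × Option (Fin d))) ≃ Fin N × Option (Fin d) :=
    (Fintype.equivFin _).symm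
  have hcard : Fintype.card (Fin N × Option (Fin r)) = N * (r + 1) := by
    simp [Fintype.card_prod]
  let eK : Fin (N * (r + 1)) ≃ Fin N × Option (Fin r) :=
    (Fintype.equivFinOfCardEq hcard).symm
  let eT : Fin (Fintype.card (Option (Σ i : Fin N, Fin (s i)))) ≃
      Option (Σ i : Fin N, Fin (s i)) := (Fintype.equivFin _).symm
  -- the union
  let Q' : Set (Fin (Fintype.card (Fin N × Option (Fin d))) → ℝ) :=
    {y | (∀ k, ∑ j, unlC A b (eK k) (eV j) * y j ≤ (fun _ => (0 : ℝ)) k) ∧
      ∀ k, ∑ j, unlG E e (eT k) (eV j) * y j = unlg (eT k)}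
  have hmem : ∀ Y : Fin N × Option (Fin d) → ℝ, (fun j => Y (eV j)) ∈ Q' ↔
      (∀ i, (∀ k, ∑ j, A i k j * Y (i, some j) ≤ b i k * Y (i, none)) ∧ 0 ≤ Y (i, none)) ∧
      (∀ i k, ∑ j, E i k j * Y (i, some j) = e i k * Y (i, none)) ∧
      ∑ i, Y (i, none) = 1 := by
    intro Y
    have h1 : ∀ k, ∑ j, unlC A b (eK k) (eV j) * Y (eV j) =
        ∑ v, unlC A b (eK k) v * Y v := fun k =>
      Equiv.sum_comp eV (fun v => unlC A b (eK k) v * Y v)
    have h2 : ∀ k, ∑ j, unlG E e (eT k) (eV j) * Y (eV j) =
        ∑ v, unlG E e (eT k) v * Y v := fun k =>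
      Equiv.sum_comp eV (fun v => unlG E e (eT k) v * Y v)
    show (_ ∧ _) ↔ _
    simp only [h1, h2]
    rw [← unl_ineq A b Y, ← unl_eqs E e Y]
    refine and_congr ⟨fun h k => ?_, fun h k => h _⟩ ⟨fun h k => ?_, fun h k => h _⟩
    · have := h (eK.symm k)
      rwa [Equiv.apply_symm_apply] at this
    · have := h (eT.symm k)
      rwa [Equiv.apply_symm_apply] at this
  refine ⟨_, Q', ⟨fun k j => unlC A b (eK k) (eV j), fun _ => 0, _,
    fun k j => unlG E e (eT k) (eV j), fun k => unlg (eT k), rfl⟩, ?_⟩
  -- the points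
  let X : Equiv.Perm (Fin n) → Fin N × Option (Fin d) → ℝ := fun σ v =>
    if v.1 = iσ σ then (match v.2 with | none => 1 | some j => x σ j) else 0
  refine ⟨fun σ j => X σ (eV j), fun σ => ?_, fun P hP hPR => ?_⟩
  · rw [hmem]
    have hxm := hiσ σ
    rw [hQ] at hxm
    refine ⟨fun i => ?_, fun i k => ?_, ?_⟩
    · by_cases hi : i = iσ σ
      · subst hi
        simp only [X, if_true, mul_one]
        exact ⟨hxm.1, zero_le_one⟩
      · simp only [X, hi, if_false, mul_zero, Finset.sum_const_zero]
        exact ⟨fun _ => le_rfl, le_refl 0⟩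
    · by_cases hi : i = iσ σ
      · subst hi
        simp only [X, if_true, mul_one]
        exact hxm.2 k
      · simp [X, hi]
    · rw [Finset.sum_eq_single (iσ σ)]
      · simp [X]
      · intro b _ hb
        simp [X, hb]
      · simp
  -- the objective
  obtain ⟨c, c₀, h1, h2⟩ := hobj P hP hPR
  let cc : Fin N × Option (Fin d) → ℝ := fun v => match v.2 with | none => c₀ | some j => c j
  refine ⟨fun j => cc (eV j), 0, fun σ => ?_, fun y hy => ?_⟩
  · have h3 : ∑ j, cc (eV j) * X σ (eV j) = ∑ j, c j * x σ j + c₀ := by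
      rw [Equiv.sum_comp eV (fun v => cc v * X σ v), Fintype.sum_prod_type,
        Finset.sum_eq_single (iσ σ)]
      · rw [Fintype.sum_option]
        simp [cc, X]
        ring
      · intro b _ hb
        simp [X, hb]
      · simp
    show |(∑ j, cc (eV j) * X σ (eV j) + 0) - _| ≤ _
    rw [add_zero, h3]
    exact h1 σ
  · obtain ⟨σ₀, hσ₀⟩ := Finite.exists_min (fun σ : Equiv.Perm (Fin n) => tlen P σ)
    refine ⟨σ₀, ?_⟩
    set m := tlen P σ₀ - δ with hm
    have hlow : ∀ i, ∀ z ∈ Q i, m ≤ ∑ j, c j * z j + c₀ := by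
      intro i z hz
      obtain ⟨σ, hσ⟩ := h2 i z hz
      have := hσ₀ σ
      linarith
    obtain ⟨Y, hY⟩ : ∃ Y : Fin N × Option (Fin d) → ℝ, y = fun j => Y (eV j) :=
      ⟨fun v => y (eV.symm v), by ext j; simp⟩
    rw [hY, hmem] at hy
    obtain ⟨hy1, hy2, hy3⟩ := hy
    have h4 : ∑ j, cc (eV j) * y j = ∑ i, (∑ j, c j * Y (i, some j) + c₀ * Y (i, none)) := by
      rw [hY]
      show ∑ j, cc (eV j) * Y (eV j) = _
      rw [Equiv.sum_comp eV (fun v => cc v * Y v), Fintype.sum_prod_type]
      refine Finset.sum_congr rfl fun i _ => ?_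
      rw [Fintype.sum_option]
      simp only [cc]
      ring
    have h5 : ∀ i, m * Y (i, none) ≤ ∑ j, c j * Y (i, some j) + c₀ * Y (i, none) := by
      intro i
      obtain ⟨hineq, hl⟩ := hy1 i
      have hdiv : ∀ (w : Fin d → ℝ), ∑ j, w j * (Y (i, some j) / Y (i, none)) =
          (∑ j, w j * Y (i, some j)) / Y (i, none) := by
        intro w
        rw [Finset.sum_div]
        refine Finset.sum_congr rfl fun j _ => ?_
        ring
      rcases hl.lt_or_eq with hpos | hzero
      · -- positive weight
        have hz : (fun j => Y (i, some j) / Y (i, none)) ∈ Q i := by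
          rw [hQ]
          constructor
          · intro k
            show ∑ j, A i k j * (Y (i, some j) / Y (i, none)) ≤ b i k
            rw [hdiv, div_le_iff₀ hpos]
            exact hineq k
          · intro k
            show ∑ j, E i k j * (Y (i, some j) / Y (i, none)) = e i k
            rw [hdiv, hy2 i k]
            field_simp
        have h7 := hlow i _ hz
        rw [hdiv] at h7
        have h9 := mul_le_mul_of_nonneg_right h7 hl
        rw [add_mul, div_mul_cancel₀ _ hpos.ne'] at h9
        exact h9
      · -- recession direction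
        rw [← hzero] at hineq ⊢
        obtain ⟨q, hq⟩ := hne i
        have hlin : ∀ (w : Fin d → ℝ) (t : ℝ), ∑ j, w j * (q j + t * Y (i, some j)) =
            ∑ j, w j * q j + t * ∑ j, w j * Y (i, some j) := by
          intro w t
          rw [Finset.mul_sum, ← Finset.sum_add_distrib]
          refine Finset.sum_congr rfl fun j _ => ?_
          ring
        have hqt : ∀ t : ℝ, 0 ≤ t → (fun j => q j + t * Y (i, some j)) ∈ Q i := by
          intro t ht
          have hq' := hq
          rw [hQ] at hq' ⊢
          constructor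
          · intro k
            show ∑ j, A i k j * (q j + t * Y (i, some j)) ≤ b i k
            rw [hlin]
            have h6 := hineq k
            rw [mul_zero] at h6
            have h7 := hq'.1 k
            have h8 := mul_nonpos_of_nonneg_of_nonpos ht h6
            linarith
          · intro k
            show ∑ j, E i k j * (q j + t * Y (i, some j)) = e i k
            have h6 := hy2 i k
            rw [← hzero, mul_zero] at h6
            have h7 := hq'.2 k
            rw [hlin, h6, h7]
            ring
        have hval : ∀ t : ℝ, 0 ≤ t → m ≤ (∑ j, c j * q j + c₀) + t * ∑ j, c j * Y (i, some j) := by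
          intro t ht
          have h7 := hlow i _ (hqt t ht)
          rw [hlin] at h7
          linarith
        have hnn : 0 ≤ ∑ j, c j * Y (i, some j) := by
          by_contra hneg
          push Not at hneg
          have h0 := hval 0 le_rfl
          have hb : 0 ≤ (∑ j, c j * q j + c₀) - m := by linarith
          have h8 := hval (((∑ j, c j * q j + c₀) - m + 1) / (- ∑ j, c j * Y (i, some j)))
            (div_nonneg (by linarith) (by linarith))
          have h9 : ((∑ j, c j * q j + c₀) - m + 1) / (- ∑ j, c j * Y (i, some j)) *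
              ∑ j, c j * Y (i, some j) = -((∑ j, c j * q j + c₀) - m + 1) := by
            rw [div_mul_eq_mul_div, div_eq_iff (by linarith)]
            ring
          rw [h9] at h8
          linarith
        linarith
    show m ≤ ∑ j, cc (eV j) * y j + 0
    rw [add_zero, h4]
    calc m = m * ∑ i, Y (i, none) := by rw [hy3, mul_one]
      _ = ∑ i, m * Y (i, none) := by rw [Finset.mul_sum]
      _ ≤ _ := Finset.sum_le_sum fun i _ => h5 i

end Pool.Agent.Helper22.MI
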